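import Mathlib
import Pool.Agent.V1187.MA.Mid

/-!
The maximal integral means of univalent quadratic polynomials.
-/

namespace Pool.Agent.Results.MP_d3fa2a_an.Quadratic

open Set Metric MeasureTheory Complex
open Pool.Agent.V1187.MA
open Pool.Agent.H713R2 (tc hasSum_tc)

/-- The normalised polynomials of degree at most `n` that are injective on the open unit disc. -/
structure IsUniv (n : ℕ) (p : Polynomial ℂ) : Prop where
  deg : p.natDegree ≤ n
  zero : p.coeff 0 = 0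
  one : p.coeff 1 = 1
  inj : InjOn (fun z : ℂ => p.eval z) (ball 0 1)

/-- The integral mean of order `q` over the unit circle. -/
noncomputable def mean (q : ℝ) (p : Polynomial ℂ) : ℝ :=
  ∫ t in (0 : ℝ)..(2 * Real.pi), ‖p.eval (Complex.exp ((t : ℂ) * I))‖ ^ q

/-- An analytic branch of `(1 + z) ^ (q / 2)`. -/
noncomputable def F (q : ℝ) (z : ℂ) : ℂ := Complex.exp (((q / 2 : ℝ) : ℂ) * Complex.log (1 + z))

lemma mem_slit {z : ℂ} (hz : ‖z‖ < 1) : 1 + z ∈ slitPlane := by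
  rw [Complex.mem_slitPlane_iff]
  left
  have h1 := neg_le_of_abs_le (Complex.abs_re_le_norm z)
  rw [Complex.add_re, Complex.one_re]
  linarith

lemma F_diff (q : ℝ) : DifferentiableOn ℂ (F q) (ball 0 1) := by
  intro z hz
  rw [mem_ball_zero_iff] at hz
  apply DifferentiableAt.differentiableWithinAt
  unfold F
  have h1 : DifferentiableAt ℂ (fun z : ℂ => 1 + z) z := by fun_prop
  exact ((h1.clog (mem_slit hz)).const_mul _).cexp

lemma F_norm (q : ℝ) {z : ℂ} (hz : ‖z‖ < 1) : ‖F q z‖ ^ 2 = ‖1 + z‖ ^ q := by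
  have hne : 1 + z ≠ 0 := Complex.slitPlane_ne_zero (mem_slit hz)
  unfold F
  rw [Complex.norm_exp, Complex.re_ofReal_mul, Complex.log_re,
    Real.rpow_def_of_pos (norm_pos_iff.2 hne), ← Real.exp_nat_mul]
  congr 1
  push_cast
  ring

lemma key (q : ℝ) {e : ℂ} (he : ‖e‖ = 1) {r : ℝ} (hr : 0 ≤ r) (hr1 : r < 1) :
    HasSum (fun j => ‖tc (F q) j‖ ^ 2 * r ^ (2 * j))
      ((2 * Real.pi)⁻¹ * ∫ t in (0 : ℝ)..(2 * Real.pi), ‖1 + e * circleMap 0 r t‖ ^ q) := by
  have hmem : ∀ z : ℂ, ‖z‖ = r → e * z ∈ ball (0 : ℂ) 1 := by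
    intro z hz
    rw [mem_ball_zero_iff, norm_mul, he, hz, one_mul]
    exact hr1
  have hs : ∀ z : ℂ, ‖z‖ = r → HasSum (fun j => (tc (F q) j * e ^ j) * z ^ j) (F q (e * z)) := by
    intro z hz
    have h1 := hasSum_tc (F_diff q) (hmem z hz)
    have h2 : (fun j => (tc (F q) j * e ^ j) * z ^ j) = fun j => tc (F q) j * (e * z) ^ j := by
      funext j
      rw [mul_pow]
      ring
    rw [h2]
    exact h1
  have hsum : Summable fun j => ‖tc (F q) j * e ^ j‖ * r ^ j := by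
    have h1 := (hs (r : ℂ) (by rw [Complex.norm_real, Real.norm_of_nonneg hr])).summable.norm
    refine h1.congr fun j => ?_
    rw [norm_mul, norm_pow, Complex.norm_real, Real.norm_of_nonneg hr]
  have h1 := Pool.Agent.Helper405.Area.parseval (P := fun z => F q (e * z))
    (Q := fun z => F q (e * z)) hr hsum hsum hs hs
  have hc : ∀ t : ℝ, ‖circleMap 0 r t‖ = r := fun t => by
    rw [norm_circleMap_zero, abs_of_nonneg hr]
  have h4 : ∀ t : ℝ, (starRingEnd ℂ) (F q (e * circleMap 0 r t)) * F q (e * circleMap 0 r t) =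
      ((‖1 + e * circleMap 0 r t‖ ^ q : ℝ) : ℂ) := by
    intro t
    have h5 := hmem _ (hc t)
    rw [mem_ball_zero_iff] at h5
    rw [Complex.conj_mul', ← F_norm q h5]
    push_cast
    rfl
  simp only [h4] at h1
  rw [intervalIntegral.integral_ofReal] at h1
  have h6 : (fun j => (starRingEnd ℂ) (tc (F q) j * e ^ j) * (tc (F q) j * e ^ j) *
      ((r ^ (2 * j) : ℝ) : ℂ)) = fun j => ((‖tc (F q) j‖ ^ 2 * r ^ (2 * j) : ℝ) : ℂ) := by
    funext j
    rw [Complex.conj_mul', norm_mul, norm_pow, he, one_pow, mul_one]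
    push_cast
    rfl
  rw [h6] at h1
  have h7 : ((2 * Real.pi : ℂ)⁻¹ * ((∫ t in (0 : ℝ)..(2 * Real.pi),
      ‖1 + e * circleMap 0 r t‖ ^ q : ℝ) : ℂ)) = (((2 * Real.pi)⁻¹ *
        ∫ t in (0 : ℝ)..(2 * Real.pi), ‖1 + e * circleMap 0 r t‖ ^ q : ℝ) : ℂ) := by
    push_cast
    rfl
  rw [h7] at h1
  exact Complex.hasSum_ofReal.1 h1

lemma mono_mean (q : ℝ) {e : ℂ} (he : ‖e‖ = 1) {r : ℝ} (hr : 0 ≤ r) (hr1 : r ≤ 1 / 2) :
    ∫ t in (0 : ℝ)..(2 * Real.pi), ‖1 + e * circleMap 0 r t‖ ^ q ≤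
      ∫ t in (0 : ℝ)..(2 * Real.pi), ‖1 + 1 * circleMap 0 (1 / 2) t‖ ^ q := by
  have hpi := Real.pi_pos
  have h1 := key q he hr (by linarith : r < 1)
  have h2 := key q norm_one (by norm_num : (0 : ℝ) ≤ 1 / 2) (by norm_num : (1 / 2 : ℝ) < 1)
  have h3 := hasSum_le (fun j => mul_le_mul_of_nonneg_left
    (pow_le_pow_left₀ hr hr1 (2 * j)) (sq_nonneg ‖tc (F q) j‖)) h1 h2
  exact le_of_mul_le_mul_left h3 (by positivity)

lemma eval_two {p : Polynomial ℂ} (h : IsUniv 2 p) (z : ℂ) :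
    p.eval z = z + p.coeff 2 * z ^ 2 := by
  rw [Polynomial.eval_eq_sum_range' (lt_of_le_of_lt h.deg (by norm_num : 2 < 3))]
  rw [Finset.sum_range_succ, Finset.sum_range_succ, Finset.sum_range_one, h.zero, h.one]
  ring

lemma coeff_le {p : Polynomial ℂ} (h : IsUniv 2 p) : ‖p.coeff 2‖ ≤ 1 / 2 := by
  by_contra hcon
  push Not at hcon
  set a := p.coeff 2 with ha
  have ha0 : a ≠ 0 := by
    intro h0
    rw [h0, norm_zero] at hcon
    norm_num at hcon
  have hz : -(1 / (2 * a)) ∈ ball (0 : ℂ) 1 := by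
    rw [mem_ball_zero_iff, norm_neg, norm_div, norm_one, norm_mul, show ‖(2 : ℂ)‖ = 2 by simp,
      div_lt_one (by positivity)]
    linarith
  have hne := Pool.Agent.Helper405.Conv.deriv_ne_zero_of_injOn isOpen_ball
    p.differentiable.differentiableOn h.inj hz
  apply hne
  have h1 : (fun z : ℂ => p.eval z) = fun z => z + a * z ^ 2 := funext fun z => eval_two h z
  have h2 : HasDerivAt (fun z : ℂ => z + a * z ^ 2) (1 + a * (2 * (-(1 / (2 * a)))))
      (-(1 / (2 * a))) := by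
    have h3 := (hasDerivAt_id (-(1 / (2 * a)) : ℂ)).add
      (((hasDerivAt_id (-(1 / (2 * a)) : ℂ)).pow 2).const_mul a)
    refine h3.congr_deriv ?_
    simp
  rw [h1, h2.deriv]
  field_simp
  ring

lemma mean_eq {p : Polynomial ℂ} (h : IsUniv 2 p) (q : ℝ) : mean q p =
    ∫ t in (0 : ℝ)..(2 * Real.pi), ‖1 + p.coeff 2 * Complex.exp ((t : ℂ) * I)‖ ^ q := by
  unfold mean
  congr 1
  funext t
  rw [eval_two h]
  have h1 : ‖Complex.exp ((t : ℂ) * I)‖ = 1 := Complex.norm_exp_ofReal_mul_I t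
  have h2 : Complex.exp ((t : ℂ) * I) + p.coeff 2 * Complex.exp ((t : ℂ) * I) ^ 2 =
      Complex.exp ((t : ℂ) * I) * (1 + p.coeff 2 * Complex.exp ((t : ℂ) * I)) := by ring
  rw [h2, norm_mul, h1, one_mul]

theorem result (q : ℝ) (_hq : 0 < q) :
    IsGreatest {x : ℝ | ∃ p : Polynomial ℂ, IsUniv 2 p ∧ x = mean q p}
      (∫ t in (0 : ℝ)..(2 * Real.pi), ‖1 + Complex.exp ((t : ℂ) * I) / 2‖ ^ q) := by
  constructor
  · set p : Polynomial ℂ := Polynomial.X + Polynomial.C (1 / 2) * Polynomial.X ^ 2 with hp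
    have hev : ∀ z : ℂ, p.eval z = z + 1 / 2 * z ^ 2 := by
      intro z
      simp [hp]
    have hc2 : p.coeff 2 = 1 / 2 := by
      simp [hp, Polynomial.coeff_X]
    have hU : IsUniv 2 p := by
      refine ⟨?_, ?_, ?_, ?_⟩
      · rw [hp]; compute_degree
      · simp [hp]
      · simp [hp]
      · intro z hz w hw hzw
        simp only [hev] at hzw
        have h1 : (z - w) * (2 + (z + w)) = 0 := by linear_combination 2 * hzw
        rcases mul_eq_zero.1 h1 with h2 | h2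
        · exact sub_eq_zero.1 h2
        · exfalso
          rw [mem_ball_zero_iff] at hz hw
          have h3 : ‖z + w‖ = 2 := by
            have : z + w = -2 := by linear_combination h2
            rw [this, norm_neg]
            simp
          have h4 := norm_add_le z w
          linarith
    refine ⟨p, hU, ?_⟩
    rw [mean_eq hU, hc2]
    congr 1
    funext t
    congr 2
    ring
  · rintro _ ⟨p, hp, rfl⟩
    rw [mean_eq hp]
    set a := p.coeff 2 with ha
    have ha1 : ‖a‖ ≤ 1 / 2 := coeff_le hp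
    obtain ⟨e, he, hea⟩ : ∃ e : ℂ, ‖e‖ = 1 ∧ a = e * (‖a‖ : ℂ) := by
      by_cases h : a = 0
      · exact ⟨1, norm_one, by simp [h]⟩
      · refine ⟨a / (‖a‖ : ℂ), ?_, ?_⟩
        · rw [norm_div, Complex.norm_real, norm_norm, div_self (norm_ne_zero_iff.2 h)]
        · have : (‖a‖ : ℂ) ≠ 0 := by exact_mod_cast norm_ne_zero_iff.2 h
          field_simp
    have h1 := mono_mean q he (norm_nonneg a) ha1
    have h2 : ∀ t : ℝ, 1 + e * circleMap 0 ‖a‖ t = 1 + a * Complex.exp ((t : ℂ) * I) := by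
      intro t
      rw [circleMap_zero, ← mul_assoc, ← hea]
    have h3 : ∀ t : ℝ, 1 + 1 * circleMap 0 (1 / 2) t = 1 + Complex.exp ((t : ℂ) * I) / 2 := by
      intro t
      rw [circleMap_zero]
      push_cast
      ring
    simp only [h2, h3] at h1
    exact h1

end Pool.Agent.Results.MP_d3fa2a_an.Quadratic
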